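import Mathlib

/-! Furstenberg systems for Cesàro averages, Kolmogorov-Sinai entropy, pretentiousness. -/

set_option autoImplicit false

open Filter Topology MeasureTheory Finset

namespace Pool.Agent.Y841.PD

/-- the closed unit disc -/
abbrev U : Type := Metric.closedBall (0 : ℂ) 1

/-- the two-sided sequences in the closed unit disc, with the product topology and the product of the
Borel sigma-algebras -/
abbrev X : Type := ℤ → U

/-- the left shift -/
def T (x : X) : X := fun n => x (n + 1)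

/-- multiplicativity on the positive integers -/
def IsMult (f : ℕ → U) : Prop :=
  (f 1 : ℂ) = 1 ∧ ∀ m n : ℕ, 1 ≤ m → 1 ≤ n → m.Coprime n → (f (m * n) : ℂ) = f m * f n

/-- `∑ (1 - Re (f p * conj (χ p) * p ^ (-i t))) / p < ∞` for some Dirichlet character `χ` and some real `t` -/
def Pretentious (f : ℕ → U) : Prop :=
  ∃ (q : ℕ) (_ : NeZero q) (χ : DirichletCharacter ℂ q) (t : ℝ),
    Summable fun p : Nat.Primes =>
      (1 - ((f p : ℂ) * (starRingEnd ℂ) (χ ((p : ℕ) : ZMod q)) *
        ((p : ℕ) : ℂ) ^ (-(Complex.I * t))).re) / ((p : ℕ) : ℝ)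

/-- the point `x_f`: `f n` at the place `n ≥ 1` and `0` at the places `n ≤ 0` -/
def point (f : ℕ → U) : X := fun n => if 1 ≤ n then f n.toNat else ⟨0, by simp⟩

/-- the probability measure `μ` is the weak-* limit of `(1 / N k) ∑ n = 1, ..., N k` of the point masses
at `T ^ n x_f`, for some `N k → ∞` -/
def IsFurstenbergSystem (f : ℕ → U) (μ : Measure X) : Prop :=
  IsProbabilityMeasure μ ∧ ∃ N : ℕ → ℕ, Tendsto N atTop atTop ∧ ∀ F : C(X, ℝ),
    Tendsto (fun k => (1 / (N k : ℝ)) * ∑ n ∈ Icc 1 (N k), F (T^[n] (point f))) atTop (𝓝 (∫ x, F x ∂μ))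

/-- the Shannon entropy of the join of the partitions `ξ ∘ T ^ i`, `i < n` -/
noncomputable def jointEntropy (μ : Measure X) {k : ℕ} (ξ : X → Fin k) (n : ℕ) : ℝ :=
  ∑ w : Fin n → Fin k, Real.negMulLog (μ.real {x | ∀ i : Fin n, ξ (T^[i] x) = w i})

/-- the Kolmogorov-Sinai entropy of the shift with respect to `μ` -/
noncomputable def ksEntropy (μ : Measure X) : ENNReal :=
  ⨆ (k : ℕ) (ξ : X → Fin k) (_ : Measurable ξ),
    limsup (fun n : ℕ => ENNReal.ofReal (jointEntropy μ ξ n / n)) atTop

/-- every Furstenberg system for Cesàro averages has entropy zero -/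
def CompletelyDeterministic (f : ℕ → U) : Prop := ∀ μ, IsFurstenbergSystem f μ → ksEntropy μ = 0

end Pool.Agent.Y841.PD
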