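import Mathlib

/-! Mean value zero of non-negative multiplicative functions bounded by one. -/

set_option autoImplicit false

open Filter Topology Finset

namespace Pool.Agent.Y841.PD

theorem sum_zmod {N : ℕ} [NeZero N] (F : ZMod N → ℝ) : ∑ n ∈ range N, F (n : ZMod N) = ∑ z, F z := by
  refine Finset.sum_bij' (fun n _ => (n : ZMod N)) (fun z _ => z.val) (fun _ _ => mem_univ _)
    (fun z _ => mem_range.2 (ZMod.val_lt z)) ?_ ?_ (fun _ _ => rfl)
  · intro n hn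
    exact ZMod.val_cast_of_lt (mem_range.1 hn)
  · intro z _
    exact ZMod.natCast_zmod_val z

/-- the sum over a period of a product of a function of period `Q` and a function of period `P` -/
theorem sum_crt {Q P : ℕ} [NeZero Q] [NeZero P] (hc : Q.Coprime P) (u : ZMod Q → ℝ) (v : ZMod P → ℝ) :
    ∑ n ∈ range (Q * P), u n * v n = (∑ a, u a) * ∑ b, v b := by
  have : NeZero (Q * P) := ⟨Nat.mul_ne_zero (NeZero.ne Q) (NeZero.ne P)⟩
  have h1 : ∑ n ∈ range (Q * P), u n * v n =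
      ∑ z : ZMod (Q * P), u ((ZMod.chineseRemainder hc z).1) * v ((ZMod.chineseRemainder hc z).2) := by
    rw [← sum_zmod]
    refine sum_congr rfl fun n _ => ?_
    rw [map_natCast]
    rfl
  rw [h1, Finset.sum_mul_sum, ← Fintype.sum_prod_type']
  exact Fintype.sum_equiv (ZMod.chineseRemainder hc).toEquiv _ _ fun z => rfl

/-- the weight of one prime -/
noncomputable def wt (g : ℕ → ℝ) (p n : ℕ) : ℝ := if p ∣ n ∧ ¬ p ^ 2 ∣ n then g p else 1

theorem wt_nonneg {g : ℕ → ℝ} (h0 : ∀ n, 0 ≤ g n) (p n : ℕ) : 0 ≤ wt g p n := by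
  unfold wt; split_ifs
  · exact h0 p
  · exact zero_le_one

theorem wt_le {g : ℕ → ℝ} {p : ℕ} (h1 : g p ≤ 1) (n : ℕ) : wt g p n ≤ 1 := by
  unfold wt; split_ifs
  · exact h1
  · exact le_rfl

theorem wt_mod (g : ℕ → ℝ) (p n : ℕ) : wt g p (n % p ^ 2) = wt g p n := by
  unfold wt
  have h1 : p ∣ n % p ^ 2 ↔ p ∣ n := Nat.dvd_mod_iff (dvd_pow_self p two_ne_zero)
  have h2 : p ^ 2 ∣ n % p ^ 2 ↔ p ^ 2 ∣ n := by
    rw [Nat.dvd_mod_iff (dvd_refl _)]
  simp only [h1, h2]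

/-- the mean of the weight over a period -/
theorem sum_wt {g : ℕ → ℝ} {p : ℕ} (hp : p.Prime) :
    ∑ n ∈ range (p ^ 2), wt g p n = (p : ℝ) ^ 2 * (1 - (1 / p) * (1 - 1 / p) * (1 - g p)) := by
  have hp0 : (p : ℝ) ≠ 0 := by exact_mod_cast hp.ne_zero
  have h1 : ∑ n ∈ range (p ^ 2), wt g p n =
      ∑ n ∈ range (p ^ 2), (1 - if p ∣ n ∧ ¬ p ^ 2 ∣ n then 1 - g p else 0) := by
    refine sum_congr rfl fun n _ => ?_
    unfold wt; split_ifs <;> ring
  rw [h1, sum_sub_distrib, sum_const, card_range, nsmul_eq_mul, mul_one, ← sum_filter, sum_const, nsmul_eq_mul]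
  have h2 : ((range (p ^ 2)).filter (fun n => p ∣ n ∧ ¬ p ^ 2 ∣ n)).card = p - 1 := by
    have e : (range (p ^ 2)).filter (fun n => p ∣ n ∧ ¬ p ^ 2 ∣ n) = (Ico 1 p).image (fun k => p * k) := by
      ext n
      simp only [mem_filter, mem_range, mem_image, mem_Ico]
      constructor
      · rintro ⟨h1, ⟨k, rfl⟩, h3⟩
        refine ⟨k, ⟨?_, ?_⟩, rfl⟩
        · rcases Nat.eq_zero_or_pos k with rfl | h
          · exact absurd (by simp) h3
          · exact h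
        · rw [pow_two] at h1
          exact lt_of_mul_lt_mul_left h1 (Nat.zero_le _)
      · rintro ⟨k, ⟨h1, h2⟩, rfl⟩
        refine ⟨?_, dvd_mul_right _ _, fun h => ?_⟩
        · rw [pow_two]; exact Nat.mul_lt_mul_of_pos_left h2 hp.pos
        · rw [pow_two] at h
          have := Nat.le_of_dvd h1 ((Nat.mul_dvd_mul_iff_left hp.pos).1 h)
          omega
    rw [e, card_image_of_injective _ (fun a b h => Nat.eq_of_mul_eq_mul_left hp.pos h), Nat.card_Ico]
  rw [h2, Nat.cast_sub hp.one_le]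
  push_cast
  field_simp

/-- the product of the weights of the primes of a finite set -/
noncomputable def W (g : ℕ → ℝ) (S : Finset ℕ) (n : ℕ) : ℝ := ∏ p ∈ S, wt g p n

theorem W_mod (g : ℕ → ℝ) (S : Finset ℕ) (n : ℕ) : W g S (n % ∏ p ∈ S, p ^ 2) = W g S n := by
  unfold W
  refine prod_congr rfl fun p hp => ?_
  rw [← wt_mod g p (n % ∏ p ∈ S, p ^ 2), ← wt_mod g p n, Nat.mod_mod_of_dvd]
  exact dvd_prod_of_mem _ hp

theorem sum_W {g : ℕ → ℝ} (S : Finset ℕ) (hS : ∀ p ∈ S, p.Prime) :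
    ∑ n ∈ range (∏ p ∈ S, p ^ 2), W g S n =
      (∏ p ∈ S, (p : ℝ) ^ 2) * ∏ p ∈ S, (1 - (1 / p) * (1 - 1 / p) * (1 - g p)) := by
  induction S using Finset.induction_on with
  | empty => simp [W]
  | insert q S hq ih =>
    have hS' : ∀ p ∈ S, p.Prime := fun p hp => hS p (mem_insert_of_mem hp)
    have hqp : q.Prime := hS q (mem_insert_self _ _)
    have ih := ih hS'
    rw [prod_insert hq, prod_insert hq, prod_insert hq]
    set Q := ∏ p ∈ S, p ^ 2 with hQ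
    have hQ0 : Q ≠ 0 := prod_ne_zero_iff.2 fun p hp => pow_ne_zero _ (hS' p hp).ne_zero
    have : NeZero Q := ⟨hQ0⟩
    have : NeZero (q ^ 2) := ⟨pow_ne_zero _ hqp.ne_zero⟩
    have hc : (q ^ 2).Coprime Q := by
      refine Nat.Coprime.prod_right fun p hp => ?_
      refine Nat.Coprime.pow _ _ ((Nat.coprime_primes hqp (hS' p hp)).2 ?_)
      rintro rfl; exact hq hp
    have h1 : ∑ n ∈ range (q ^ 2 * Q), W g (insert q S) n =
        ∑ n ∈ range (q ^ 2 * Q), (fun a : ZMod (q ^ 2) => wt g q a.val) n * (fun b : ZMod Q => W g S b.val) n := by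
      refine sum_congr rfl fun n _ => ?_
      simp only [ZMod.val_natCast]
      rw [wt_mod, hQ, W_mod]
      exact prod_insert hq
    rw [h1, sum_crt hc (fun a : ZMod (q ^ 2) => wt g q a.val) (fun b : ZMod Q => W g S b.val),
      ← sum_zmod, ← sum_zmod]
    have h2 : ∑ n ∈ range (q ^ 2), wt g q (n : ZMod (q ^ 2)).val = ∑ n ∈ range (q ^ 2), wt g q n := by
      refine sum_congr rfl fun n _ => ?_
      rw [ZMod.val_natCast, wt_mod]
    have h3 : ∑ n ∈ range Q, W g S (n : ZMod Q).val = ∑ n ∈ range Q, W g S n := by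
      refine sum_congr rfl fun n _ => ?_
      rw [ZMod.val_natCast, hQ, W_mod]
    rw [h2, h3, sum_wt hqp, ih]
    ring

theorem W_nonneg {g : ℕ → ℝ} (h0 : ∀ n, 0 ≤ g n) (S : Finset ℕ) (n : ℕ) : 0 ≤ W g S n :=
  prod_nonneg fun p _ => wt_nonneg h0 p n

theorem W_le {g : ℕ → ℝ} (h0 : ∀ n, 0 ≤ g n) (S : Finset ℕ) (h1 : ∀ p ∈ S, g p ≤ 1) (n : ℕ) : W g S n ≤ 1 :=
  prod_le_one (fun p _ => wt_nonneg h0 p n) fun p hp => wt_le (h1 p hp) n

/-- the sum of a periodic function with values in `[0, 1]` -/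
theorem sum_periodic {h : ℕ → ℝ} {Q : ℕ} (hQ : 0 < Q) (hper : ∀ n, h (n % Q) = h n)
    (h1 : ∀ n, h n ≤ 1) (N : ℕ) :
    ∑ n ∈ range N, h n ≤ (N / Q : ℕ) * (∑ n ∈ range Q, h n) + Q := by
  have key : ∀ k : ℕ, ∑ n ∈ range (Q * k), h n = k * ∑ n ∈ range Q, h n := by
    intro k
    induction k with
    | zero => simp
    | succ k ih =>
      rw [Nat.mul_succ, sum_range_add, ih]
      have : ∑ x ∈ range Q, h (Q * k + x) = ∑ x ∈ range Q, h x := by
        refine sum_congr rfl fun x hx => ?_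
        rw [← hper (Q * k + x), Nat.mul_add_mod, hper]
      rw [this]; push_cast; ring
  calc ∑ n ∈ range N, h n = ∑ n ∈ range (Q * (N / Q) + N % Q), h n := by rw [Nat.div_add_mod]
    _ = ∑ n ∈ range (Q * (N / Q)), h n + ∑ x ∈ range (N % Q), h (Q * (N / Q) + x) := sum_range_add _ _ _
    _ ≤ (N / Q : ℕ) * (∑ n ∈ range Q, h n) + ∑ x ∈ range (N % Q), (1 : ℝ) := by
        rw [key]; gcongr; exact h1 _
    _ ≤ _ := by
        rw [sum_const, card_range, nsmul_eq_mul, mul_one]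
        gcongr
        exact (Nat.mod_lt _ hQ).le

theorem le_W {g : ℕ → ℝ} (h0 : ∀ n, 0 ≤ g n) (h1 : ∀ n, 0 < n → g n ≤ 1)
    (hmul : ∀ m n, 0 < m → 0 < n → m.Coprime n → g (m * n) = g m * g n)
    (S : Finset ℕ) (hS : ∀ p ∈ S, p.Prime) : ∀ n, 0 < n → g n ≤ W g S n := by
  induction S using Finset.induction_on with
  | empty => intro n hn; simpa [W] using h1 n hn
  | insert q S hq ih =>
    intro n hn
    have hS' : ∀ p ∈ S, p.Prime := fun p hp => hS p (mem_insert_of_mem hp)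
    have hqp : q.Prime := hS q (mem_insert_self _ _)
    have e : W g (insert q S) n = wt g q n * W g S n := prod_insert hq
    rw [e]
    by_cases h : q ∣ n ∧ ¬ q ^ 2 ∣ n
    · obtain ⟨⟨m, rfl⟩, h2⟩ := h
      have hm : 0 < m := Nat.pos_of_mul_pos_left hn
      have hqm : ¬ q ∣ m := fun hd => h2 (by rw [pow_two]; exact Nat.mul_dvd_mul_left _ hd)
      have hw : wt g q (q * m) = g q := by unfold wt; rw [if_pos ⟨dvd_mul_right _ _, h2⟩]
      have hW : W g S (q * m) = W g S m := by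
        unfold W
        refine prod_congr rfl fun p hp => ?_
        have hpq : p.Coprime q := (Nat.coprime_primes (hS' p hp) hqp).2 (by rintro rfl; exact hq hp)
        have a1 : p ∣ q * m ↔ p ∣ m := hpq.dvd_mul_left
        have a2 : p ^ 2 ∣ q * m ↔ p ^ 2 ∣ m := (hpq.pow_left 2).dvd_mul_left
        unfold wt
        simp only [a1, a2]
      rw [hw, hW, hmul q m hqp.pos hm ((Nat.Prime.coprime_iff_not_dvd hqp).2 hqm)]
      exact mul_le_mul_of_nonneg_left (ih hS' m hm) (h0 q)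
    · have hw : wt g q n = 1 := by unfold wt; rw [if_neg h]
      rw [hw, one_mul]
      exact ih hS' n hn

theorem prod_small {g : ℕ → ℝ} (h0 : ∀ n, 0 ≤ g n) (h1 : ∀ n, 0 < n → g n ≤ 1)
    (hdiv : ¬ Summable (fun p : Nat.Primes => (1 - g p) / (p : ℝ))) (ε : ℝ) (hε : 0 < ε) :
    ∃ S : Finset ℕ, (∀ p ∈ S, p.Prime) ∧ ∏ p ∈ S, (1 - (1 / (p : ℝ)) * (1 - 1 / p) * (1 - g p)) ≤ ε := by
  by_contra hcon
  push Not at hcon
  apply hdiv
  refine summable_of_sum_le (c := -2 * Real.log ε) (fun p => ?_) (fun u => ?_)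
  · have := h1 p p.2.pos
    have : 0 ≤ 1 - g p := by linarith
    positivity
  · have hu := hcon (u.image (fun p : Nat.Primes => (p : ℕ))) (by
      intro p hp
      rw [mem_image] at hp
      obtain ⟨a, _, rfl⟩ := hp
      exact a.2)
    have hu : ε < ∏ p ∈ u, (1 - (1 / ((p : ℕ) : ℝ)) * (1 - 1 / (p : ℕ)) * (1 - g p)) := by
      refine lt_of_lt_of_eq hu ?_
      exact prod_image (fun a _ b _ h => Subtype.ext h)
    have h2 : ∏ p ∈ u, (1 - (1 / ((p : ℕ) : ℝ)) * (1 - 1 / (p : ℕ)) * (1 - g p)) ≤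
        Real.exp (-(1 / 2) * ∑ p ∈ u, (1 - g p) / ((p : ℕ) : ℝ)) := by
      rw [mul_sum, Real.exp_sum]
      refine prod_le_prod (fun p _ => ?_) (fun p _ => ?_)
      · have hp : (2 : ℝ) ≤ (p : ℕ) := by exact_mod_cast p.2.two_le
        have hg0 := h0 p
        have hg1 := h1 p p.2.pos
        have e1 : (1 / ((p : ℕ) : ℝ)) ≤ 1 := by
          rw [div_le_one (by linarith)]; linarith
        have e2 : 0 ≤ (1 / ((p : ℕ) : ℝ)) := by positivity
        have e3 : (1 / ((p : ℕ) : ℝ)) * (1 - 1 / (p : ℕ)) ≤ 1 := by nlinarith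
        have e4 : 0 ≤ (1 / ((p : ℕ) : ℝ)) * (1 - 1 / (p : ℕ)) := mul_nonneg e2 (by linarith)
        nlinarith
      · have hp : (2 : ℝ) ≤ (p : ℕ) := by exact_mod_cast p.2.two_le
        have hg1 := h1 p p.2.pos
        have e1 : (1 / ((p : ℕ) : ℝ)) ≤ 1 / 2 := by
          rw [div_le_div_iff₀ (by linarith) (by norm_num)]; linarith
        have e2 : 0 ≤ (1 / ((p : ℕ) : ℝ)) := by positivity
        have e3 : (1 / ((p : ℕ) : ℝ)) * (1 / 2) * (1 - g p) ≤ (1 / ((p : ℕ) : ℝ)) * (1 - 1 / (p : ℕ)) * (1 - g p) := by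
          apply mul_le_mul_of_nonneg_right _ (by linarith)
          apply mul_le_mul_of_nonneg_left _ e2
          linarith
        have e5 : (1 - g p) / ((p : ℕ) : ℝ) = (1 / ((p : ℕ) : ℝ)) * (1 - g p) := by ring
        calc 1 - (1 / ((p : ℕ) : ℝ)) * (1 - 1 / (p : ℕ)) * (1 - g p) ≤
            -(1 / 2) * ((1 - g p) / ((p : ℕ) : ℝ)) + 1 := by rw [e5]; linarith
          _ ≤ _ := Real.add_one_le_exp _
    have h3 : Real.log ε ≤ -(1 / 2) * ∑ p ∈ u, (1 - g p) / ((p : ℕ) : ℝ) := by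
      rw [Real.log_le_iff_le_exp hε]
      exact hu.le.trans h2
    linarith

/-- the mean of a non-negative multiplicative function bounded by one whose values at the primes are
not close to one is zero -/
theorem mean_zero {g : ℕ → ℝ} (h0 : ∀ n, 0 ≤ g n) (h1 : ∀ n, 0 < n → g n ≤ 1)
    (hmul : ∀ m n, 0 < m → 0 < n → m.Coprime n → g (m * n) = g m * g n)
    (hdiv : ¬ Summable (fun p : Nat.Primes => (1 - g p) / (p : ℝ))) (ε : ℝ) (hε : 0 < ε) :
    ∃ N₀ : ℕ, ∀ N, N₀ ≤ N → ∑ n ∈ Icc 1 N, g n ≤ ε * N := by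
  obtain ⟨S, hS, hP⟩ := prod_small h0 h1 hdiv (ε / 4) (by positivity)
  set Q := ∏ p ∈ S, p ^ 2 with hQ
  have hQ0 : 0 < Q := Nat.pos_of_ne_zero (prod_ne_zero_iff.2 fun p hp => pow_ne_zero _ (hS p hp).ne_zero)
  obtain ⟨K, hK⟩ := exists_nat_ge (2 * Q / ε)
  refine ⟨max K 1, fun N hN => ?_⟩
  have hN1 : (1 : ℝ) ≤ N := by exact_mod_cast (le_max_right _ _).trans hN
  have hNK : 2 * Q / ε ≤ N := hK.trans (by exact_mod_cast (le_max_left _ _).trans hN)
  have a1 : ∑ n ∈ Icc 1 N, g n ≤ ∑ n ∈ range (N + 1), W g S n := by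
    calc ∑ n ∈ Icc 1 N, g n ≤ ∑ n ∈ Icc 1 N, W g S n :=
          sum_le_sum fun n hn => le_W h0 h1 hmul S hS n (mem_Icc.1 hn).1
      _ ≤ ∑ n ∈ range (N + 1), W g S n :=
          sum_le_sum_of_subset_of_nonneg (fun n hn => by rw [mem_Icc] at hn; rw [mem_range]; omega)
            fun n _ _ => W_nonneg h0 S n
  have a2 := sum_periodic hQ0 (W_mod g S) (W_le h0 S fun p hp => h1 p (hS p hp).pos) (N + 1)
  have a6 := sum_W (g := g) S hS
  rw [← hQ] at a6
  rw [a6] at a2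
  have a3 : (((N + 1) / Q : ℕ) : ℝ) ≤ (N + 1) / Q := by
    have := @Nat.cast_div_le ℝ _ _ _ (N + 1) Q
    push_cast at this
    exact this
  have hQr : (∏ p ∈ S, (p : ℝ) ^ 2) = (Q : ℝ) := by rw [hQ]; push_cast; rfl
  have hQpos : (0 : ℝ) < Q := by exact_mod_cast hQ0
  rw [hQr] at a2
  have a4 : (((N + 1) / Q : ℕ) : ℝ) * ((Q : ℝ) * ∏ p ∈ S, (1 - (1 / (p : ℝ)) * (1 - 1 / p) * (1 - g p))) ≤
      (N + 1) * (ε / 4) := by
    calc _ ≤ (((N + 1) / Q : ℕ) : ℝ) * ((Q : ℝ) * (ε / 4)) := by gcongr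
      _ ≤ ((N + 1) / Q) * ((Q : ℝ) * (ε / 4)) := by gcongr
      _ = _ := by field_simp
  have a5 : (Q : ℝ) ≤ ε / 2 * N := by
    rw [div_le_iff₀ hε] at hNK
    linarith
  calc ∑ n ∈ Icc 1 N, g n ≤ (N + 1) * (ε / 4) + Q := a1.trans (a2.trans (by linarith))
    _ ≤ (N + N) * (ε / 4) + ε / 2 * N := by gcongr
    _ = ε * N := by ring

end Pool.Agent.Y841.PD
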