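import Pool.Agent.Y841.PD.Defs
import Pool.Agent.Y841.PD.Mean

set_option autoImplicit false

open Filter Topology MeasureTheory Finset

namespace Pool.Agent.Y841.PD

/-- the constant sequence zero -/
def zeroX : X := fun _ => ⟨0, by simp⟩

instance : CompactSpace U := isCompact_iff_compactSpace.1 (isCompact_closedBall (0 : ℂ) 1)

theorem iter_T (n : ℕ) (x : X) (j : ℤ) : (T^[n] x) j = x (j + n) := by
  induction n generalizing x with
  | zero => simp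
  | succ n ih =>
    rw [Function.iterate_succ_apply, ih]
    show x (j + n + 1) = _
    congr 1
    push_cast
    ring

theorem norm_le (u : U) : ‖(u : ℂ)‖ ≤ 1 := by
  have := u.2
  rwa [mem_closedBall_zero_iff] at this

/-- the mean of the absolute values -/
theorem mean_abs {f : ℕ → U} (hf : IsMult f)
    (hdiv : ¬ Summable (fun p : Nat.Primes => (1 - ‖(f p : ℂ)‖) / ((p : ℕ) : ℝ))) (ε : ℝ) (hε : 0 < ε) :
    ∃ N₀ : ℕ, ∀ N, N₀ ≤ N → ∑ n ∈ Icc 1 N, ‖(f n : ℂ)‖ ≤ ε * N :=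
  mean_zero (g := fun n => ‖(f n : ℂ)‖) (fun n => norm_nonneg _) (fun n _ => norm_le _)
    (fun m n hm hn h => by rw [hf.2 m n hm hn h, norm_mul]) hdiv ε hε

theorem norm_point (f : ℕ → U) (n : ℕ) (j : ℤ) :
    ‖((T^[n] (point f)) j : ℂ)‖ = if 1 ≤ j + n then ‖(f (j + n).toNat : ℂ)‖ else 0 := by
  rw [iter_T]
  unfold point
  split_ifs with h
  · rfl
  · simp

theorem sum_shift (f : ℕ → U) (N : ℕ) (j : ℤ) :
    ∑ n ∈ Icc 1 N, ‖((T^[n] (point f)) j : ℂ)‖ ≤ ∑ n ∈ Icc 1 (N + j.natAbs), ‖(f n : ℂ)‖ := by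
  have h1 : ∑ n ∈ Icc 1 N, ‖((T^[n] (point f)) j : ℂ)‖ =
      ∑ n ∈ (Icc 1 N).filter (fun n : ℕ => 1 ≤ j + (n : ℤ)), ‖(f (j + (n : ℤ)).toNat : ℂ)‖ := by
    rw [sum_filter]
    exact sum_congr rfl fun n _ => norm_point f n j
  rw [h1]
  have h2 : ∑ n ∈ (Icc 1 N).filter (fun n : ℕ => 1 ≤ j + (n : ℤ)), ‖(f (j + (n : ℤ)).toNat : ℂ)‖ =
      ∑ m ∈ ((Icc 1 N).filter (fun n : ℕ => 1 ≤ j + (n : ℤ))).image (fun n : ℕ => (j + (n : ℤ)).toNat),
        ‖(f m : ℂ)‖ := by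
    rw [sum_image]
    intro a ha b hb hab
    simp only [coe_filter, mem_Icc, Set.mem_ofPred_eq] at ha hb
    simp only at hab
    omega
  rw [h2]
  refine sum_le_sum_of_subset_of_nonneg ?_ fun n _ _ => norm_nonneg _
  intro m hm
  rw [mem_image] at hm
  obtain ⟨n, hn, rfl⟩ := hm
  rw [mem_filter, mem_Icc] at hn
  rw [mem_Icc]
  omega

theorem mean_shift {f : ℕ → U} (hf : IsMult f)
    (hdiv : ¬ Summable (fun p : Nat.Primes => (1 - ‖(f p : ℂ)‖) / ((p : ℕ) : ℝ))) (j : ℤ) (ε : ℝ) (hε : 0 < ε) :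
    ∃ N₀ : ℕ, ∀ N, N₀ ≤ N → ∑ n ∈ Icc 1 N, ‖((T^[n] (point f)) j : ℂ)‖ ≤ ε * N := by
  obtain ⟨N₀, h⟩ := mean_abs hf hdiv (ε / 2) (by positivity)
  refine ⟨max N₀ j.natAbs, fun N hN => ?_⟩
  have h1 : (j.natAbs : ℝ) ≤ N := by exact_mod_cast (le_max_right _ _).trans hN
  calc _ ≤ ∑ n ∈ Icc 1 (N + j.natAbs), ‖(f n : ℂ)‖ := sum_shift f N j
    _ ≤ ε / 2 * ((N + j.natAbs : ℕ) : ℝ) := h _ (le_trans (le_max_left _ _) (hN.trans (Nat.le_add_right _ _)))
    _ ≤ ε / 2 * (N + N) := by push_cast; gcongr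
    _ = ε * N := by ring

/-- a continuous function differs from its value at `0` by a multiple of finitely many coordinates, up to `ε` -/
theorem cont_bound (F : C(X, ℝ)) (ε : ℝ) (hε : 0 < ε) :
    ∃ (I : Finset ℤ) (c : ℤ → ℝ), (∀ j, 0 ≤ c j) ∧ ∀ x : X, |F x - F zeroX| ≤ ε + ∑ j ∈ I, c j * ‖(x j : ℂ)‖ := by
  have h1 : {x : X | |F x - F zeroX| < ε} ∈ 𝓝 zeroX := by
    have h2 := F.continuous.continuousAt (x := zeroX)
    have h3 := Metric.continuousAt_iff'.1 h2 ε hε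
    filter_upwards [h3] with x hx
    rwa [Real.dist_eq] at hx
  rw [nhds_pi, Filter.mem_pi] at h1
  obtain ⟨I, hI, t, ht, hsub⟩ := h1
  have h4 : ∀ i, ∃ δ : ℝ, 0 < δ ∧ ∀ u : U, ‖(u : ℂ)‖ < δ → u ∈ t i := by
    intro i
    obtain ⟨δ, hδ, hb⟩ := Metric.mem_nhds_iff.1 (ht i)
    refine ⟨δ, hδ, fun u hu => hb ?_⟩
    rw [Metric.mem_ball, Subtype.dist_eq]
    show dist (u : ℂ) 0 < δ
    rwa [dist_zero_right]
  choose δ hδ hb using h4
  refine ⟨hI.toFinset, fun j => 2 * ‖F‖ / δ j, fun j => by have := hδ j; positivity, fun x => ?_⟩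
  have hbd : |F x - F zeroX| ≤ 2 * ‖F‖ := by
    have a1 := F.norm_coe_le_norm x
    have a2 := F.norm_coe_le_norm zeroX
    calc |F x - F zeroX| ≤ |F x| + |F zeroX| := abs_sub _ _
      _ ≤ ‖F‖ + ‖F‖ := add_le_add a1 a2
      _ = _ := by ring
  have hnn : ∀ j ∈ hI.toFinset, 0 ≤ 2 * ‖F‖ / δ j * ‖(x j : ℂ)‖ := by
    intro j _
    have := hδ j
    positivity
  by_cases hx : ∀ j ∈ I, ‖(x j : ℂ)‖ < δ j
  · have : x ∈ {x : X | |F x - F zeroX| < ε} := hsub fun j hj => hb j _ (hx j hj)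
    have h5 : |F x - F zeroX| < ε := this
    have := sum_nonneg hnn
    linarith
  · push Not at hx
    obtain ⟨j, hj, hj2⟩ := hx
    have h6 : 2 * ‖F‖ ≤ 2 * ‖F‖ / δ j * ‖(x j : ℂ)‖ := by
      have := hδ j
      rw [div_mul_eq_mul_div, le_div_iff₀ this]
      gcongr
    have h7 := single_le_sum hnn (hI.mem_toFinset.2 hj)
    linarith

theorem tendsto_zero {f : ℕ → U} (hf : IsMult f)
    (hdiv : ¬ Summable (fun p : Nat.Primes => (1 - ‖(f p : ℂ)‖) / ((p : ℕ) : ℝ))) (F : C(X, ℝ)) :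
    Tendsto (fun N : ℕ => (1 / (N : ℝ)) * ∑ n ∈ Icc 1 N, F (T^[n] (point f))) atTop (𝓝 (F zeroX)) := by
  rw [Metric.tendsto_atTop]
  intro ε hε
  obtain ⟨I, c, hc, hb⟩ := cont_bound F (ε / 4) (by positivity)
  have h1 : ∀ j, ∃ N₀ : ℕ, ∀ N, N₀ ≤ N →
      ∑ n ∈ Icc 1 N, ‖((T^[n] (point f)) j : ℂ)‖ ≤ (ε / (4 * (c j + 1) * (I.card + 1))) * N := by
    intro j
    have := hc j
    exact mean_shift hf hdiv j _ (by positivity)
  choose N₀ hN₀ using h1
  refine ⟨(∑ j ∈ I, N₀ j) + 1, fun N hN => ?_⟩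
  have hN1 : (1 : ℝ) ≤ N := by exact_mod_cast (Nat.le_add_left _ _).trans hN
  have hNpos : (0 : ℝ) < N := by linarith
  have e1 : (1 / (N : ℝ)) * ∑ n ∈ Icc 1 N, F (T^[n] (point f)) - F zeroX =
      (1 / (N : ℝ)) * ∑ n ∈ Icc 1 N, (F (T^[n] (point f)) - F zeroX) := by
    rw [sum_sub_distrib, sum_const, Nat.card_Icc, nsmul_eq_mul]
    simp only [Nat.add_sub_cancel]
    field_simp
  rw [Real.dist_eq, e1, abs_mul, abs_of_pos (by positivity : (0 : ℝ) < 1 / N)]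
  have e2 : |∑ n ∈ Icc 1 N, (F (T^[n] (point f)) - F zeroX)| ≤
      ∑ n ∈ Icc 1 N, (ε / 4 + ∑ j ∈ I, c j * ‖((T^[n] (point f)) j : ℂ)‖) :=
    (abs_sum_le_sum_abs _ _).trans (sum_le_sum fun n _ => hb _)
  have e3 : ∑ n ∈ Icc 1 N, (ε / 4 + ∑ j ∈ I, c j * ‖((T^[n] (point f)) j : ℂ)‖) ≤ N * (ε / 4) + N * (ε / 4) := by
    rw [sum_add_distrib, sum_const, Nat.card_Icc, nsmul_eq_mul, Nat.add_sub_cancel]
    gcongr
    rw [sum_comm]
    calc ∑ j ∈ I, ∑ n ∈ Icc 1 N, c j * ‖((T^[n] (point f)) j : ℂ)‖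
        ≤ ∑ j ∈ I, (ε / (4 * (I.card + 1))) * N := by
          refine sum_le_sum fun j hj => ?_
          rw [← mul_sum]
          have h2 : N₀ j ≤ N := (single_le_sum (fun i _ => Nat.zero_le (N₀ i)) hj).trans
            ((Nat.le_succ _).trans hN)
          have hcj := hc j
          calc c j * ∑ n ∈ Icc 1 N, ‖((T^[n] (point f)) j : ℂ)‖
              ≤ (c j + 1) * ((ε / (4 * (c j + 1) * (I.card + 1))) * N) := by
                apply mul_le_mul (by linarith) (hN₀ j N h2) (sum_nonneg fun _ _ => norm_nonneg _) (by linarith)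
            _ = _ := by field_simp
      _ = (I.card : ℝ) / (I.card + 1) * (N * (ε / 4)) := by
          rw [sum_const, nsmul_eq_mul]; field_simp
      _ ≤ 1 * (N * (ε / 4)) := by
          gcongr
          rw [div_le_one (by positivity)]
          linarith
      _ = _ := one_mul _
  calc 1 / (N : ℝ) * |∑ n ∈ Icc 1 N, (F (T^[n] (point f)) - F zeroX)|
      ≤ 1 / (N : ℝ) * (N * (ε / 4) + N * (ε / 4)) := by gcongr; exact e2.trans e3
    _ = ε / 2 := by field_simp; ring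
    _ < ε := by linarith

theorem furst_iff {f : ℕ → U} (hf : IsMult f)
    (hdiv : ¬ Summable (fun p : Nat.Primes => (1 - ‖(f p : ℂ)‖) / ((p : ℕ) : ℝ))) (μ : Measure X) :
    IsFurstenbergSystem f μ ↔ μ = Measure.dirac zeroX := by
  constructor
  · rintro ⟨hμ, N, hN, h⟩
    refine ext_of_forall_integral_eq_of_IsFiniteMeasure fun F => ?_
    have h1 := h F.toContinuousMap
    have h2 := (tendsto_zero hf hdiv F.toContinuousMap).comp hN
    have h3 := tendsto_nhds_unique h1 h2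
    rw [integral_dirac]
    exact h3
  · rintro rfl
    refine ⟨inferInstance, id, tendsto_id, fun F => ?_⟩
    rw [integral_dirac]
    exact tendsto_zero hf hdiv F

theorem ks_dirac : ksEntropy (Measure.dirac zeroX) = 0 := by
  have h : ∀ (k : ℕ) (ξ : X → Fin k) (n : ℕ), jointEntropy (Measure.dirac zeroX) ξ n = 0 := by
    intro k ξ n
    unfold jointEntropy
    refine sum_eq_zero fun w _ => ?_
    rw [Measure.real, Measure.dirac_apply]
    by_cases hw : zeroX ∈ {x : X | ∀ i : Fin n, ξ (T^[i] x) = w i}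
    · rw [Set.indicator_of_mem hw]; simp
    · rw [Set.indicator_of_notMem hw]; simp
  unfold ksEntropy
  simp [h]

theorem not_pretentious {f : ℕ → U}
    (hdiv : ¬ Summable (fun p : Nat.Primes => (1 - ‖(f p : ℂ)‖) / ((p : ℕ) : ℝ))) : ¬ Pretentious f := by
  rintro ⟨q, _, χ, t, h⟩
  apply hdiv
  refine Summable.of_nonneg_of_le (fun p => ?_) (fun p => ?_) h
  · have := norm_le (f p)
    have : 0 ≤ 1 - ‖(f p : ℂ)‖ := by linarith
    positivity
  · have hp : (0 : ℝ) < (p : ℕ) := by exact_mod_cast p.2.pos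
    gcongr
    refine (Complex.re_le_norm _).trans ?_
    rw [norm_mul, norm_mul, RCLike.norm_conj]
    have a1 : ‖χ ((p : ℕ) : ZMod q)‖ ≤ 1 := DirichletCharacter.norm_le_one χ _
    have a2 : ‖((p : ℕ) : ℂ) ^ (-(Complex.I * t))‖ = 1 := by
      rw [Complex.norm_natCast_cpow_of_pos p.2.pos]
      simp
    rw [a2, mul_one]
    exact mul_le_of_le_one_right (norm_nonneg _) a1

end Pool.Agent.Y841.PD
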